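import Pool.Agent.Helper18.EW.Goals4
import Pool.Agent.Helper82.EW.NA

set_option autoImplicit false

namespace Pool.Agent.Helper40.EW

open Pool.Agent.Helper18.EW

theorem hLower (n m h g W r : ℕ) (hr : r ^ 2 ≤ n) (hr3 : 1000000 ≤ r)
    (hm : 1000 ≤ m) (hW : W ≤ 3 * m ^ 2) (hg : 200 * g ≤ h)
    (hh : n * (m * (m + 1)) ≤ h * (h + 2 * g + 1) + 2 * W) : 99 * (r * m) ≤ 100 * (h - 1) := by
  by_contra hc
  push Not at hc
  have e0 : 1000000 * 1000 ≤ r * m := Nat.mul_le_mul hr3 hm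
  obtain ⟨x, hx⟩ : ∃ x, x = r * m := ⟨_, rfl⟩
  rw [← hx] at hc e0
  have h2 : 1000 * h ≤ 991 * x := by omega
  have h3 : (1000 * h) ^ 2 ≤ (991 * x) ^ 2 := Nat.pow_le_pow_left h2 2
  have h4 : h * (200 * g) ≤ h * h := Nat.mul_le_mul_left _ hg
  have h5 : x ^ 2 ≤ n * (m * (m + 1)) := by
    have h6 : r ^ 2 * (m * (m + 1)) ≤ n * (m * (m + 1)) := Nat.mul_le_mul_right _ hr
    have h7 : x ^ 2 = r ^ 2 * (m * m) := by rw [hx]; ring
    have h8 : r ^ 2 * (m * m) ≤ r ^ 2 * (m * (m + 1)) :=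
      Nat.mul_le_mul_left _ (Nat.mul_le_mul_left _ (Nat.le_succ m))
    rw [h7]
    exact le_trans h8 h6
  have h9 : m ^ 2 * 1000000000000 ≤ x ^ 2 := by
    have h10 : (1000000 : ℕ) ^ 2 ≤ r ^ 2 := Nat.pow_le_pow_left hr3 2
    have h11 : x ^ 2 = m ^ 2 * r ^ 2 := by rw [hx]; ring
    rw [h11]
    exact Nat.mul_le_mul_left _ (by norm_num at h10 ⊢; exact h10)
  have h12 : 1000000000 * x ≤ x ^ 2 := by
    have h13 : x * 1000000000 ≤ x * x := Nat.mul_le_mul_left _ e0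
    nlinarith
  have h14 : h * (h + 2 * g + 1) = h * h + 2 * (h * g) + h := by ring
  rw [h14] at hh
  have h15 : h * (200 * g) = 200 * (h * g) := by ring
  rw [h15] at h4
  have h16 : (1000 * h) ^ 2 = 1000000 * (h * h) := by ring
  have h17 : (991 * x) ^ 2 = 982081 * x ^ 2 := by ring
  rw [h16, h17] at h3
  obtain ⟨a, ha⟩ : ∃ a, a = h * h := ⟨_, rfl⟩
  obtain ⟨b, hb⟩ : ∃ b, b = h * g := ⟨_, rfl⟩
  obtain ⟨y, hy⟩ : ∃ y, y = x ^ 2 := ⟨_, rfl⟩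
  obtain ⟨z, hz⟩ : ∃ z, z = m ^ 2 := ⟨_, rfl⟩
  rw [← ha] at h3 hh h4
  rw [← hb] at hh h4
  rw [← hy] at h3 h5 h9 h12
  rw [← hz] at h9 hW
  have h18 : y ≤ a + 2 * b + h + 2 * W := le_trans h5 hh
  omega

/-- **NAZ.** -/
theorem goalNAZ : GoalNAZ := by
  intro n m d h W Lg hL hLn hn hnm hW hh1 hhd hg heq
  obtain ⟨g, hgd⟩ : ∃ g, g = d + 1 - h := ⟨_, rfl⟩
  have hd : d = h + g - 1 := by omega
  have hd1 : d + 1 = h + g := by omega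
  have hd2 : d + 2 = h + g + 1 := by omega
  have hd3 : d + 2 - h = g + 1 := by omega
  rw [← hgd] at hg
  rw [← hgd, hd1, hd2, show h + g + 1 - h = g + 1 by omega] at heq
  have hid : (h + g) * (h + g + 1) = h * (h + 2 * g + 1) + g * (g + 1) := by ring
  rw [hid] at heq
  have hL3 : 1 ≤ Lg ^ 3 := Nat.one_le_pow _ _ hL
  have hn1 : 2 ^ 85 ≤ n := by
    calc 2 ^ 85 = 2 ^ 85 * 1 := by ring
      _ ≤ 2 ^ 85 * Lg ^ 3 := Nat.mul_le_mul_left _ hL3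
      _ ≤ n := hLn
  have hr : (Nat.sqrt n) ^ 2 ≤ n := Nat.sqrt_le' n
  have hr2 : n < (Nat.sqrt n + 1) ^ 2 := Nat.lt_succ_sqrt' n
  have hr3 : 1000000 ≤ Nat.sqrt n := by
    rw [Nat.le_sqrt']
    refine le_trans ?_ hn1
    norm_num
  have hm : 1000 ≤ m := by
    have : (2 : ℕ) ^ 85 ≤ 433 * m := le_trans hn1 hnm
    norm_num at this
    omega
  obtain ⟨A, hA⟩ : ∃ A, A = n * (m * (m + 1)) := ⟨_, rfl⟩
  obtain ⟨B, hB⟩ : ∃ B, B = h * (h + 2 * g + 1) := ⟨_, rfl⟩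
  obtain ⟨G, hG⟩ : ∃ G, G = g * (g + 1) := ⟨_, rfl⟩
  have heq' : B + G = A + 2 * W + G ∨ B + G + 2 * W = A + G := by
    rw [hA, hB, hG]
    exact heq
  have h1 : B ≤ A + 2 * W := by omega
  have h2 : A ≤ B + 2 * W := by omega
  rw [hA, hB] at h1 h2
  have h3 : (h - 1 + 1) * (h - 1 + 2) ≤ n * (m * (m + 1)) + 2 * W := by
    refine le_trans ?_ h1
    have h4 : h - 1 + 1 = h := by omega
    have h5 : h - 1 + 2 = h + 1 := by omega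
    rw [h4, h5]
    exact Nat.mul_le_mul_left _ (by omega)
  have hd2' := Pool.Agent.Helper82.EW.dUpper n m (h - 1) W (Nat.sqrt n) hr hr2 hr3 hm hW h3
  have hd1' := hLower n m h g W (Nat.sqrt n) hr hr3 hm hW hg h2
  obtain ⟨p, l, b, hp1, hp2, hp3, hrest⟩ := Pool.Agent.Helper82.EW.choose n m (h - 1)
    (2 ^ 75 * Lg ^ 3) Lg (Nat.sqrt n) hL rfl (by
      calc 2 ^ 10 * (2 ^ 75 * Lg ^ 3) = 2 ^ 85 * Lg ^ 3 := by ring
        _ ≤ n := hLn) hn hnm hr hr2 hr3 hm hd1' hd2'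
  refine ⟨p, l, b, hp1, ?_, hp3, hrest⟩
  rw [← hgd]
  have h6 : 99999 ≤ (h - 1) / p := by omega
  have h7 : 99999 * p ≤ h - 1 := (Nat.le_div_iff_mul_le hp1).1 h6
  omega

end Pool.Agent.Helper40.EW
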